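import Pool.Agent.Results.MP_e3c312_co.CuspSymmetry

/-!
# The cusp framework in the space of all placements modulo isometries
-/

set_option autoImplicit false

namespace Pool.Agent.J4.H52.Cusp

open Pool.Agent.Results.MP_e3c312_co.CuspSymmetry
open scoped Topology

noncomputable section

/-- congruence of placements -/
def rel (q q' : Fin 7 → EuclideanSpace ℝ (Fin 3)) : Prop :=
  ∃ T : EuclideanSpace ℝ (Fin 3) ≃ᵢ EuclideanSpace ℝ (Fin 3), ∀ i, T (q i) = q' i

theorem rel_equiv : Equivalence rel where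
  refl q := ⟨IsometryEquiv.refl _, fun _ => rfl⟩
  symm := by
    rintro q q' ⟨T, h⟩
    exact ⟨T.symm, fun i => by rw [← h i, T.symm_apply_apply]⟩
  trans := by
    rintro q q' q'' ⟨T, h⟩ ⟨T', h'⟩
    exact ⟨T.trans T', fun i => by rw [← h' i, ← h i]; rfl⟩

theorem mk_eq_iff (q q' : Fin 7 → EuclideanSpace ℝ (Fin 3)) :
    Quot.mk rel q = Quot.mk rel q' ↔ rel q q' := by
  constructor
  · intro h
    exact rel_equiv.eqvGen_iff.1 (Quot.eqvGen_exact h)
  · exact fun h => Quot.sound h

/-- the local conditions, for all placements -/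
def Near' (q : Fin 7 → EuclideanSpace ℝ (Fin 3)) : Prop :=
  0 < dist (q 1) (q 2) ∧ dist (q 1) (q 2) ^ 2 < 8 ∧
    |dist (q 3) (q 4) ^ 2 - 25| < 12 / 100 ∧ dist (q 3) (q 5) ^ 2 < 5661

theorem near_congr' {q q' : Fin 7 → EuclideanSpace ℝ (Fin 3)} (h : rel q q') (hq : Near' q) :
    Near' q' := by
  obtain ⟨T, hT⟩ := h
  unfold Near' at *
  rw [← hT 1, ← hT 2, ← hT 3, ← hT 4, ← hT 5, T.dist_eq, T.dist_eq, T.dist_eq]
  exact hq

theorem near_isOpen' : IsOpen {q : Fin 7 → EuclideanSpace ℝ (Fin 3) | Near' q} := by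
  have ev : ∀ i : Fin 7, Continuous fun q : Fin 7 → EuclideanSpace ℝ (Fin 3) => q i :=
    fun i => continuous_apply i
  have c12 := (ev 1).dist (ev 2)
  have c34 := (ev 3).dist (ev 4)
  have c35 := (ev 3).dist (ev 5)
  refine (isOpen_lt continuous_const c12).inter ((isOpen_lt (c12.pow 2) continuous_const).inter
    ((isOpen_lt ((c34.pow 2).sub continuous_const).abs continuous_const).inter
      (isOpen_lt (c35.pow 2) continuous_const)))

theorem near_std {x : ℝ} (hx : x ∈ Dom) : Near' (std x) := by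
  obtain ⟨h12, h34, h35, _, _, _, _⟩ := (rel_std hx).nonedges
  have hX := dom_X hx
  have hX0 : 0 ≤ x ^ 2 := sq_nonneg x
  have hz0 : 0 < fz (x ^ 2) := (rel_std hx).z0
  have hz := (rel_std hx).hz
  have hP := (rel_std hx).hP
  have hP0 : 0 < fP (x ^ 2) := (rel_std hx).P0
  change dist (std x 1) (std x 2) ^ 2 = _ at h12
  change dist (std x 3) (std x 4) ^ 2 = _ at h34
  change dist (std x 3) (std x 5) ^ 2 = _ at h35
  refine ⟨?_, ?_, ?_, ?_⟩
  · have : dist (std x 1) (std x 2) ≠ 0 := by
      intro h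
      rw [h] at h12
      have : 0 < 4 * fz (x ^ 2) ^ 2 := by positivity
      linarith
    positivity
  · rw [h12]
    have h1 : 0 < fP (x ^ 2) ^ 2 := by positivity
    have h2 : fz (x ^ 2) ^ 2 < 2 := by
      by_contra hc
      push Not at hc
      have h3 : 2 * fP (x ^ 2) ^ 2 ≤ fz (x ^ 2) ^ 2 * fP (x ^ 2) ^ 2 :=
        mul_le_mul_of_nonneg_right hc h1.le
      nlinarith
    linarith
  · rw [h34, abs_lt]
    constructor <;> linarith
  · rw [h35]
    linarith

/-- the open set -/
def O : Set (Quot rel) := Quot.mk rel '' {q | Near' q}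

theorem O_isOpen : IsOpen O := by
  refine (isQuotientMap_quot_mk (r := rel)).isOpen_preimage.1 ?_
  convert near_isOpen' using 1
  ext q
  constructor
  · rintro ⟨q', hq', h⟩
    exact near_congr' ((mk_eq_iff q' q).1 h) hq'
  · intro hq
    exact ⟨q, hq, rfl⟩

theorem scale_mem (y : Set.Ioo (0 : ℝ) 1) : (2 * (y : ℝ) - 1) / 10 ∈ Dom := by
  obtain ⟨y, h1, h2⟩ := y
  constructor <;> simp only <;> linarith

/-- the curve of classes, parametrised by `(0, 1)` -/
def curve' (y : Set.Ioo (0 : ℝ) 1) : Quot rel := Quot.mk rel (std ((2 * (y : ℝ) - 1) / 10))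

theorem curve_continuous' : Continuous curve' := by
  unfold curve'
  refine continuous_quot_mk.comp ?_
  refine cont_std.comp_continuous (by fun_prop) ?_
  exact fun y => scale_mem y

/-- the invariant -/
def inv' (q : Fin 7 → EuclideanSpace ℝ (Fin 3)) : ℝ := dist (q 2) (q 6) ^ 2 - dist (q 1) (q 6) ^ 2

theorem inv_congr' (q q' : Fin 7 → EuclideanSpace ℝ (Fin 3)) (h : rel q q') : inv' q = inv' q' := by
  obtain ⟨T, hT⟩ := h
  unfold inv'
  rw [← hT 1, ← hT 2, ← hT 6, T.dist_eq, T.dist_eq]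

theorem inv_continuous' : Continuous inv' := by
  have ev : ∀ i : Fin 7, Continuous fun q : Fin 7 → EuclideanSpace ℝ (Fin 3) => q i :=
    fun i => continuous_apply i
  unfold inv'
  exact (((ev 2).dist (ev 6)).pow 2).sub (((ev 1).dist (ev 6)).pow 2)

/-- the invariant on the quotient -/
def invC' : Quot rel → ℝ := Quot.lift inv' inv_congr'

theorem invC_continuous' : Continuous invC' := continuous_quot_lift _ inv_continuous'

theorem inv_std' {x : ℝ} (hx : x ∈ Dom) : inv' (std x) = 4 * fh x := inv_std hx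

theorem curve_isEmbedding' : Topology.IsEmbedding curve' := by
  refine Topology.IsEmbedding.of_comp curve_continuous' invC_continuous' ?_
  have hc : Continuous (invC' ∘ curve') := invC_continuous'.comp curve_continuous'
  have hm : StrictMono (invC' ∘ curve') := by
    intro y y' h
    have e : ∀ z : Set.Ioo (0 : ℝ) 1, (invC' ∘ curve') z = 4 * fh ((2 * (z : ℝ) - 1) / 10) :=
      fun z => inv_std' (scale_mem z)
    rw [e, e]
    have h' : (2 * (y : ℝ) - 1) / 10 < (2 * (y' : ℝ) - 1) / 10 := by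
      have : (y : ℝ) < y' := h
      linarith
    have := fh_strictMono (scale_mem y) (scale_mem y') h'
    linarith
  refine hm.isEmbedding_of_ordConnected ?_
  have : PreconnectedSpace (Set.Ioo (0 : ℝ) 1) :=
    Subtype.preconnectedSpace isPreconnected_Ioo
  exact (isPreconnected_range hc).ordConnected

/-- the classes of the placements with the edge lengths of `p7` -/
def R : Set (Quot rel) := {x | ∃ q : Fin 7 → EuclideanSpace ℝ (Fin 3), Quot.mk rel q = x ∧
  ∀ i j : Fin 7, G7.Adj i j → dist (q i) (q j) = dist (p7 i) (p7 j)}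

theorem range_curve' : Set.range curve' = O ∩ R := by
  ext x
  constructor
  · rintro ⟨y, rfl⟩
    exact ⟨⟨_, near_std (scale_mem y), rfl⟩, ⟨_, rfl, std_mem (scale_mem y)⟩⟩
  · rintro ⟨⟨q, hq, rfl⟩, ⟨q', hq', hd⟩⟩
    obtain ⟨T', hT'⟩ := (mk_eq_iff q' q).1 hq'
    have hd' : ∀ i j : Fin 7, G7.Adj i j → dist (q i) (q j) = dist (p7 i) (p7 j) := by
      intro i j h
      rw [← hT' i, ← hT' j, T'.dist_eq]
      exact hd i j h
    obtain ⟨h1, h2, h3, h4⟩ := hq
    obtain ⟨T, x, hx, hT⟩ := local_unique q hd' h1 h2 h3 h4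
    have hy : (10 * x + 1) / 2 ∈ Set.Ioo (0 : ℝ) 1 := by
      obtain ⟨a, b⟩ := hx
      constructor <;> linarith
    refine ⟨⟨(10 * x + 1) / 2, hy⟩, ?_⟩
    unfold curve'
    rw [mk_eq_iff]
    have e : (2 * ((10 * x + 1) / 2) - 1) / 10 = x := by ring
    simp only [e]
    exact ⟨T.symm, fun i => by rw [← hT i, T.symm_apply_apply]⟩

/-- the homeomorphism -/
def homeo : ↥(O ∩ R) ≃ₜ ↥(Set.Ioo (0 : ℝ) 1) :=
  (curve_isEmbedding'.toHomeomorph.trans (Homeomorph.setCongr range_curve')).symm

theorem homeo_symm (y : Set.Ioo (0 : ℝ) 1) : (homeo.symm y).1 = curve' y := rfl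

/-- the group of order two generated by the reflection -/
def Gam' : Subgroup (EuclideanSpace ℝ (Fin 3) ≃ᵢ EuclideanSpace ℝ (Fin 3)) := Gam

instance : Finite Gam' := by
  have : Finite ({1, reflI} : Set (Isom 3)) := Set.toFinite _
  exact this

/-- the action on the vertices -/
def theta' : Gam' →* Equiv.Perm (Fin 7) where
  toFun g := (theta g : G7 ≃g G7).toEquiv
  map_one' := by
    have h : theta 1 = 1 := map_one theta
    show (theta 1 : G7 ≃g G7).toEquiv = 1
    rw [h]; rfl
  map_mul' g h := by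
    have e : theta (g * h) = theta g * theta h := map_mul theta g h
    show (theta (g * h) : G7 ≃g G7).toEquiv = _
    rw [e]; rfl

end

end Pool.Agent.J4.H52.Cusp
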