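import Mathlib

/-!
# The Wirtinger inequality on a cycle
-/

set_option autoImplicit false

namespace Pool.Agent.J4.H52

open Finset ZMod

section

variable {N : ℕ} [NeZero N]

theorem parseval (g : ZMod N → ℂ) : ∑ k, ‖dft g k‖ ^ 2 = N * ∑ j, ‖g j‖ ^ 2 := by
  have key : ∑ k, (dft g k) * (starRingEnd ℂ) (dft g k) = N * ∑ j, g j * (starRingEnd ℂ) (g j) := by
    have h1 : ∀ k, (starRingEnd ℂ) (dft g k) =
        ∑ j, stdAddChar (j * k) * (starRingEnd ℂ) (g j) := by
      intro k
      rw [dft_apply, map_sum]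
      refine Finset.sum_congr rfl fun j _ => ?_
      rw [smul_eq_mul, map_mul, ← AddChar.map_neg_eq_conj, neg_neg]
    have h2 : ∀ j, ∑ k, stdAddChar (j * k) * dft g k = N * g j := by
      intro j
      have h3 := congrFun (dft_dft g) (-j)
      rw [dft_apply, neg_neg] at h3
      simp only [smul_eq_mul] at h3
      rw [← h3]
      refine Finset.sum_congr rfl fun k _ => ?_
      congr 2
      ring
    calc ∑ k, (dft g k) * (starRingEnd ℂ) (dft g k)
        = ∑ k, ∑ j, (stdAddChar (j * k) * dft g k) * (starRingEnd ℂ) (g j) := by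
          refine Finset.sum_congr rfl fun k _ => ?_
          rw [h1, Finset.mul_sum]
          refine Finset.sum_congr rfl fun j _ => ?_
          ring
      _ = ∑ j, (∑ k, stdAddChar (j * k) * dft g k) * (starRingEnd ℂ) (g j) := by
          rw [Finset.sum_comm]
          refine Finset.sum_congr rfl fun j _ => ?_
          rw [Finset.sum_mul]
      _ = N * ∑ j, g j * (starRingEnd ℂ) (g j) := by
          rw [Finset.mul_sum]
          refine Finset.sum_congr rfl fun j _ => ?_
          rw [h2]; ring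
  have h : ((∑ k, ‖dft g k‖ ^ 2 : ℝ) : ℂ) = ((N * ∑ j, ‖g j‖ ^ 2 : ℝ) : ℂ) := by
    push_cast
    simp only [Complex.mul_conj'] at key
    exact key
  exact_mod_cast h

theorem norm_char_sub_one {k : ZMod N} (hk : k ≠ 0) :
    2 * Real.sin (Real.pi / N) ≤ ‖stdAddChar k - 1‖ := by
  have hN : 0 < N := Nat.pos_of_ne_zero (NeZero.ne N)
  have hNr : (0 : ℝ) < N := by exact_mod_cast hN
  have hv : k.val < N := ZMod.val_lt k
  have hv0 : 0 < k.val := by
    rw [Nat.pos_iff_ne_zero]
    intro h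
    exact hk ((ZMod.val_eq_zero k).1 h)
  have h1 : stdAddChar k = Complex.exp (Complex.I * ((2 * Real.pi * k.val / N : ℝ) : ℂ)) := by
    have := ZMod.stdAddChar_coe (N := N) (k.val : ℤ)
    have hk' : (((k.val : ℕ) : ℤ) : ZMod N) = k := by
      rw [Int.cast_natCast, ZMod.natCast_val, ZMod.cast_id]
    rw [hk'] at this
    rw [this]
    congr 1
    push_cast
    ring
  rw [h1, Complex.norm_exp_I_mul_ofReal_sub_one]
  have h2 : 2 * Real.pi * k.val / N / 2 = Real.pi * k.val / N := by ring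
  rw [h2, norm_mul, Real.norm_eq_abs, Real.norm_eq_abs, abs_of_pos (by norm_num : (0 : ℝ) < 2)]
  have hpi := Real.pi_pos
  have hvr : (k.val : ℝ) + 1 ≤ N := by exact_mod_cast hv
  have hv1 : (1 : ℝ) ≤ k.val := by exact_mod_cast hv0
  have h3 : Real.sin (Real.pi / N) ≤ Real.sin (Real.pi * k.val / N) := by
    rcases le_total ((k.val : ℝ)) (N / 2) with h | h
    · apply Real.sin_le_sin_of_le_of_le_pi_div_two
      · have : 0 ≤ Real.pi / N := by positivity
        linarith
      · rw [div_le_iff₀ hNr]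
        nlinarith
      · apply div_le_div_of_nonneg_right _ hNr.le
        nlinarith
    · rw [← Real.sin_pi_sub (Real.pi * k.val / N)]
      apply Real.sin_le_sin_of_le_of_le_pi_div_two
      · have : 0 ≤ Real.pi / N := by positivity
        linarith
      · have : Real.pi / 2 ≤ Real.pi * k.val / N := by
          rw [le_div_iff₀ hNr]
          nlinarith
        linarith
      · rw [div_le_iff₀ hNr, sub_mul, div_mul_cancel₀ _ hNr.ne']
        nlinarith
  have h4 : Real.sin (Real.pi * k.val / N) ≤ |Real.sin (Real.pi * k.val / N)| := le_abs_self _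
  linarith

theorem wirtinger_complex (g : ZMod N → ℂ) (hg : ∑ j, g j = 0) :
    4 * Real.sin (Real.pi / N) ^ 2 * ∑ j, ‖g j‖ ^ 2 ≤ ∑ j, ‖g (j + 1) - g j‖ ^ 2 := by
  have hN : 0 < N := Nat.pos_of_ne_zero (NeZero.ne N)
  have hNr : (0 : ℝ) < N := by exact_mod_cast hN
  have hs : 0 ≤ Real.sin (Real.pi / N) := by
    apply Real.sin_nonneg_of_nonneg_of_le_pi
    · have := Real.pi_pos; positivity
    · rw [div_le_iff₀ hNr]
      have h1 : (1 : ℝ) ≤ N := by exact_mod_cast hN
      nlinarith [Real.pi_pos]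
  set D : ZMod N → ℂ := fun j => g (j + 1) - g j with hD
  have hDk : ∀ k, dft D k = (stdAddChar k - 1) * dft g k := by
    intro k
    rw [dft_apply, dft_apply]
    simp only [smul_eq_mul, hD, mul_sub, Finset.sum_sub_distrib, sub_mul, one_mul]
    congr 1
    rw [Finset.mul_sum, ← Equiv.sum_comp (Equiv.addRight (1 : ZMod N))
      (fun j => stdAddChar k * (stdAddChar (-(j * k)) * g j))]
    refine Finset.sum_congr rfl fun j _ => ?_
    simp only [Equiv.coe_addRight]
    rw [← mul_assoc, ← AddChar.map_add_eq_mul]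
    congr 2
    ring
  have h1 : (N : ℝ) * (4 * Real.sin (Real.pi / N) ^ 2 * ∑ j, ‖g j‖ ^ 2)
      ≤ N * ∑ j, ‖D j‖ ^ 2 := by
    rw [← parseval D]
    have e : (N : ℝ) * (4 * Real.sin (Real.pi / N) ^ 2 * ∑ j, ‖g j‖ ^ 2)
        = 4 * Real.sin (Real.pi / N) ^ 2 * (N * ∑ j, ‖g j‖ ^ 2) := by ring
    rw [e, ← parseval g, Finset.mul_sum]
    refine Finset.sum_le_sum fun k _ => ?_
    rw [hDk, norm_mul, mul_pow]
    by_cases hk : k = 0
    · subst hk
      rw [dft_apply_zero, hg]
      simp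
    · have h2 := norm_char_sub_one (N := N) hk
      have h3 : 4 * Real.sin (Real.pi / N) ^ 2 ≤ ‖stdAddChar k - 1‖ ^ 2 := by
        nlinarith
      exact mul_le_mul_of_nonneg_right h3 (by positivity)
  exact le_of_mul_le_mul_left h1 hNr

theorem wirtinger_zmod (g : ZMod N → ℝ) (hg : ∑ j, g j = 0) :
    4 * Real.sin (Real.pi / N) ^ 2 * ∑ j, g j ^ 2 ≤ ∑ j, (g (j + 1) - g j) ^ 2 := by
  have h := wirtinger_complex (fun j => (g j : ℂ)) (by exact_mod_cast congrArg (fun x : ℝ => (x : ℂ)) hg)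
  have e1 : ∀ j, ‖(g j : ℂ)‖ ^ 2 = g j ^ 2 := by
    intro j
    rw [Complex.norm_real, Real.norm_eq_abs, sq_abs]
  have e2 : ∀ j, ‖(g (j + 1) : ℂ) - (g j : ℂ)‖ ^ 2 = (g (j + 1) - g j) ^ 2 := by
    intro j
    rw [← Complex.ofReal_sub, Complex.norm_real, Real.norm_eq_abs, sq_abs]
  simp only [e1, e2] at h
  exact h

end

/-- **Wirtinger's inequality** for closed sequences. -/
theorem wirtinger_range (N : ℕ) (hN : 0 < N) (g : ℕ → ℝ) (h0 : g N = g 0) :
    ∃ c : ℝ, 4 * Real.sin (Real.pi / N) ^ 2 * ∑ i ∈ range N, (g i - c) ^ 2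
      ≤ ∑ i ∈ range N, (g (i + 1) - g i) ^ 2 := by
  have : NeZero N := ⟨hN.ne'⟩
  have hNr : (0 : ℝ) < N := by exact_mod_cast hN
  set c : ℝ := (∑ i ∈ range N, g i) / N with hc
  refine ⟨c, ?_⟩
  set G : ZMod N → ℝ := fun j => g j.val - c with hG
  have conv : ∀ F : ℕ → ℝ, ∑ j : ZMod N, F j.val = ∑ i ∈ range N, F i := by
    intro F
    obtain ⟨M, rfl⟩ : ∃ M, N = M + 1 := ⟨N - 1, by omega⟩
    exact (Fin.sum_univ_eq_sum_range F (M + 1))
  have hG0 : ∑ j, G j = 0 := by
    rw [hG]
    rw [conv (fun i => g i - c), Finset.sum_sub_distrib, Finset.sum_const, card_range, nsmul_eq_mul,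
      hc, mul_div_cancel₀ _ hNr.ne', sub_self]
  have h := wirtinger_zmod G hG0
  have e1 : ∑ j, G j ^ 2 = ∑ i ∈ range N, (g i - c) ^ 2 := conv (fun i => (g i - c) ^ 2)
  have hval : ∀ j : ZMod N, g (j + 1).val = g (j.val + 1) := by
    intro j
    obtain ⟨M, rfl⟩ : ∃ M, N = M + 1 := ⟨N - 1, by omega⟩
    by_cases hj : j.val + 1 < M + 1
    · have : (j + 1).val = j.val + 1 := by
        have h2 : j + 1 = ((j.val + 1 : ℕ) : ZMod (M + 1)) := by
          push_cast
          rw [ZMod.natCast_val, ZMod.cast_id]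
        rw [h2, ZMod.val_natCast, Nat.mod_eq_of_lt hj]
      rw [this]
    · have hj' : j.val = M := by
        have := ZMod.val_lt j
        omega
      have : j + 1 = 0 := by
        have h1 : ((j.val + 1 : ℕ) : ZMod (M + 1)) = 0 := by
          rw [hj']
          exact ZMod.natCast_self (M + 1)
        push_cast at h1
        rwa [ZMod.natCast_val, ZMod.cast_id] at h1
      rw [this, hj', ZMod.val_zero, h0]
  have e2 : ∑ j, (G (j + 1) - G j) ^ 2 = ∑ i ∈ range N, (g (i + 1) - g i) ^ 2 := by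
    rw [← conv (fun i => (g (i + 1) - g i) ^ 2)]
    refine Finset.sum_congr rfl fun j _ => ?_
    simp only [hG]
    rw [hval j]
    ring
  rw [e1, e2] at h
  exact h

end Pool.Agent.J4.H52
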