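import Mathlib

/-!
# A closed walk through every dart of a finite connected graph
-/

set_option autoImplicit false
set_option linter.unusedSectionVars false

namespace Pool.Agent.J4.H52

open Finset SimpleGraph

variable {V : Type} [Fintype V] [DecidableEq V] (G : SimpleGraph V) [DecidableRel G.Adj]

/-- A closed walk with pairwise distinct darts, closed under reversal of darts. -/
def Good (a : V) (p : G.Walk a a) : Prop := p.darts.Nodup ∧ ∀ d ∈ p.darts, d.symm ∈ p.darts

variable {G}

theorem exists_unused (hG : G.Connected) {a : V} (p : G.Walk a a) (d0 : G.Dart)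
    (hd0 : d0 ∉ p.darts) : ∃ d : G.Dart, d ∉ p.darts ∧ d.fst ∈ p.support := by
  have key : ∀ (u v : V) (q : G.Walk u v), u ∈ p.support →
      v ∈ p.support ∨ ∃ d : G.Dart, d ∉ p.darts ∧ d.fst ∈ p.support := by
    intro u v q
    induction q with
    | nil => intro h; exact Or.inl h
    | cons h q ih =>
      intro hu
      rename_i u w v
      by_cases hd : (⟨(u, w), h⟩ : G.Dart) ∈ p.darts
      · exact ih (p.dart_snd_mem_support_of_mem_darts hd)
      · exact Or.inr ⟨⟨(u, w), h⟩, hd, hu⟩
  obtain ⟨q⟩ := hG.preconnected a d0.fst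
  rcases key _ _ q p.start_mem_support with h | h
  · exact ⟨d0, hd0, h⟩
  · exact h

theorem extend {a : V} (p : G.Walk a a) (hp : Good G a p) (d : G.Dart) (hd : d ∉ p.darts)
    (hs : d.fst ∈ p.support) : ∃ q : G.Walk a a, Good G a q ∧ q.length = p.length + 2 := by
  set q : G.Walk a a := (p.takeUntil d.fst hs).append
    (Walk.cons d.adj (Walk.cons d.adj.symm (p.dropUntil d.fst hs))) with hq
  have hperm : q.darts.Perm (d :: d.symm :: p.darts) := by
    have e1 : q.darts = (p.takeUntil d.fst hs).darts ++ (d :: d.symm :: (p.dropUntil d.fst hs).darts) := by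
      rw [hq, Walk.darts_append]
      rfl
    have e2 : p.darts = (p.takeUntil d.fst hs).darts ++ (p.dropUntil d.fst hs).darts := by
      conv_lhs => rw [← p.take_spec hs]
      rw [Walk.darts_append]
    rw [e1, e2]
    refine (List.perm_middle).trans (List.Perm.cons _ ?_)
    exact List.perm_middle
  refine ⟨q, ⟨?_, ?_⟩, ?_⟩
  · rw [hperm.nodup_iff, List.nodup_cons, List.nodup_cons]
    refine ⟨?_, ?_, hp.1⟩
    · rw [List.mem_cons, not_or]
      exact ⟨fun h => d.symm_ne h.symm, hd⟩
    · intro h
      have := hp.2 _ h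
      rw [Dart.symm_symm] at this
      exact hd this
  · intro e he
    rw [hperm.mem_iff] at he ⊢
    rw [List.mem_cons, List.mem_cons] at he ⊢
    rcases he with rfl | rfl | he
    · exact Or.inr (Or.inl rfl)
    · left; exact Dart.symm_symm d
    · exact Or.inr (Or.inr (hp.2 e he))
  · have h1 := hperm.length_eq
    simp only [Walk.length_darts, List.length_cons] at h1
    exact h1

/-- In a finite connected graph there is a closed walk that uses every dart exactly once. -/
theorem exists_tour (hG : G.Connected) :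
    ∃ (a : V) (p : G.Walk a a), p.darts.Nodup ∧ ∀ d : G.Dart, d ∈ p.darts := by
  by_contra hcon
  push Not at hcon
  obtain ⟨a⟩ := hG.nonempty
  have key : ∀ n : ℕ, ∃ p : G.Walk a a, Good G a p ∧ n ≤ p.length := by
    intro n
    induction n with
    | zero => exact ⟨Walk.nil, ⟨by simp, by simp⟩, Nat.zero_le _⟩
    | succ n ih =>
      obtain ⟨p, hp, hn⟩ := ih
      obtain ⟨d0, hd0⟩ := hcon a p hp.1
      obtain ⟨d, hd, hs⟩ := exists_unused hG p d0 hd0
      obtain ⟨q, hq, hl⟩ := extend p hp d hd hs
      exact ⟨q, hq, by omega⟩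
  obtain ⟨p, hp, hn⟩ := key (Fintype.card G.Dart + 1)
  have h1 := hp.1.length_le_card
  rw [Walk.length_darts] at h1
  omega

theorem sum_darts_walk {a b : V} (p : G.Walk a b) (φ : V → V → ℝ) :
    (p.darts.map fun d => φ d.fst d.snd).sum
      = ∑ i ∈ range p.length, φ (p.getVert i) (p.getVert (i + 1)) := by
  induction p with
  | nil => simp
  | cons h q ih =>
    rw [Walk.darts_cons, List.map_cons, List.sum_cons, ih, Walk.length_cons,
      Finset.sum_range_succ']
    simp only [Walk.getVert_cons_succ, Walk.getVert_zero]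
    rw [add_comm]

theorem sum_darts (φ : V → V → ℝ) :
    ∑ d : G.Dart, φ d.fst d.snd = ∑ u, ∑ v, if G.Adj u v then φ u v else 0 := by
  rw [← Finset.sum_product', ← Finset.sum_filter]
  refine Finset.sum_bij (fun d _ => (d.fst, d.snd)) ?_ ?_ ?_ ?_
  · intro d _
    simp only [univ_product_univ, mem_filter, mem_univ, true_and]
    exact d.adj
  · intro d _ e _ h
    exact Dart.ext d e h
  · rintro ⟨u, v⟩ h
    simp only [univ_product_univ, mem_filter, mem_univ, true_and] at h
    exact ⟨⟨(u, v), h⟩, mem_univ _, rfl⟩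
  · intro d _
    rfl

theorem sum_tour {a : V} (p : G.Walk a a) (hn : p.darts.Nodup) (hall : ∀ d : G.Dart, d ∈ p.darts)
    (φ : V → V → ℝ) :
    ∑ i ∈ range p.length, φ (p.getVert i) (p.getVert (i + 1))
      = ∑ u, ∑ v, if G.Adj u v then φ u v else 0 := by
  rw [← sum_darts_walk, ← sum_darts]
  have h1 : (univ : Finset G.Dart) = p.darts.toFinset := by
    ext d
    simp [hall d]
  rw [h1, List.sum_toFinset _ hn]

end Pool.Agent.J4.H52
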