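import Pool.Agent.J4.H52.Cycle
import Pool.Agent.J4.H52.Tour

/-!
# The spectral gap of simple random walk on a connected graph with `m` edges

The gap is at least `1 - cos (π / m) = 2 sin² (π / (2 m))`, the gap of the path with `m` edges.
-/

set_option autoImplicit false

namespace Pool.Agent.J4.H52

open Finset SimpleGraph

variable {V : Type} [Fintype V] [DecidableEq V] (G : SimpleGraph V) [DecidableRel G.Adj]

theorem gap (hG : G.Connected) (hm : 0 < G.edgeFinset.card) (f : V → ℝ) :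
    ∃ c : ℝ, 4 * Real.sin (Real.pi / (2 * (G.edgeFinset.card : ℝ))) ^ 2 *
        ∑ v, (G.degree v : ℝ) * (f v - c) ^ 2
      ≤ ∑ u, ∑ v, (if G.Adj u v then (f u - f v) ^ 2 else 0) := by
  obtain ⟨a, p, hn, hall⟩ := exists_tour (G := G) hG
  have hlen : p.length = 2 * G.edgeFinset.card := by
    rw [← G.dart_card_eq_twice_card_edges, ← Walk.length_darts, ← Finset.card_univ,
      ← List.toFinset_card_of_nodup hn]
    congr 1
    ext d
    simp [hall d]
  obtain ⟨c, hc⟩ := wirtinger_range p.length (by omega) (fun i => f (p.getVert i)) (by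
    simp)
  refine ⟨c, ?_⟩
  have e1 : ∑ i ∈ range p.length, (f (p.getVert i) - c) ^ 2
      = ∑ v, (G.degree v : ℝ) * (f v - c) ^ 2 := by
    rw [sum_tour p hn hall (fun u _ => (f u - c) ^ 2)]
    refine Finset.sum_congr rfl fun u _ => ?_
    rw [← Finset.sum_filter, Finset.sum_const, nsmul_eq_mul]
    congr 2
    rw [← G.card_neighborFinset_eq_degree]
    congr 1
    ext v
    simp
  have e2 : ∑ i ∈ range p.length, (f (p.getVert (i + 1)) - f (p.getVert i)) ^ 2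
      = ∑ u, ∑ v, (if G.Adj u v then (f u - f v) ^ 2 else 0) := by
    rw [sum_tour p hn hall (fun u v => (f v - f u) ^ 2)]
    refine Finset.sum_congr rfl fun u _ => Finset.sum_congr rfl fun v _ => ?_
    split_ifs
    · ring
    · rfl
  rw [e1, e2, hlen] at hc
  push_cast at hc
  exact hc

theorem asym {ε : ℝ} (hε : 0 < ε) {m : ℕ} (hm : 2 * (1 + ε) / ε ≤ m) (hm2 : 2 ≤ m) :
    1 ≤ (1 + ε) * ((m : ℝ) ^ 2 / Real.pi ^ 2) * (4 * Real.sin (Real.pi / (2 * (m : ℝ))) ^ 2) := by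
  have hmr : (2 : ℝ) ≤ m := by exact_mod_cast hm2
  have hpi := Real.pi_pos
  have hpi4 := Real.pi_le_four
  set x : ℝ := Real.pi / (2 * m) with hx
  have hx0 : 0 < x := by positivity
  have hx2 : x ≤ 2 / m := by
    rw [hx, div_le_div_iff₀ (by positivity) (by positivity)]
    nlinarith
  have hx1 : x ≤ 1 := hx2.trans (by rw [div_le_one (by positivity)]; exact hmr)
  have hs := Real.sin_gt_sub_cube hx0
  have hmx : (m : ℝ) ^ 2 / Real.pi ^ 2 = 1 / (4 * x ^ 2) := by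
    rw [hx]
    field_simp
    ring
  rw [hmx]
  have h1 : x * (1 - x ^ 2 / 4) ≤ Real.sin x := by nlinarith
  have h2 : 0 ≤ x * (1 - x ^ 2 / 4) := by
    apply mul_nonneg hx0.le
    nlinarith
  have h3 : (x * (1 - x ^ 2 / 4)) ^ 2 ≤ Real.sin x ^ 2 := pow_le_pow_left₀ h2 h1 2
  have h4 : (1 + ε) * x ^ 2 ≤ 2 * ε := by
    have h5 : x ^ 2 ≤ 4 / m ^ 2 := by
      calc x ^ 2 ≤ (2 / m) ^ 2 := pow_le_pow_left₀ hx0.le hx2 2
        _ = 4 / m ^ 2 := by ring
    have h6 : 2 * (1 + ε) ≤ ε * m := by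
      rw [div_le_iff₀ hε] at hm
      linarith
    have h7 : (1 + ε) * (4 / m ^ 2) ≤ 2 * ε := by
      rw [mul_div_assoc', div_le_iff₀ (by positivity)]
      nlinarith
    nlinarith
  have h8 : x ^ 2 ≤ (1 + ε) * Real.sin x ^ 2 := by
    have h9 : 1 ≤ (1 + ε) * (1 - x ^ 2 / 4) ^ 2 := by nlinarith [sq_nonneg (x ^ 2)]
    calc x ^ 2 = x ^ 2 * 1 := by ring
      _ ≤ x ^ 2 * ((1 + ε) * (1 - x ^ 2 / 4) ^ 2) := by
          apply mul_le_mul_of_nonneg_left h9 (by positivity)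
      _ = (1 + ε) * (x * (1 - x ^ 2 / 4)) ^ 2 := by ring
      _ ≤ (1 + ε) * Real.sin x ^ 2 := by
          apply mul_le_mul_of_nonneg_left h3 (by positivity)
  have h10 : (1 + ε) * (1 / (4 * x ^ 2)) * (4 * Real.sin x ^ 2)
      = ((1 + ε) * Real.sin x ^ 2) / x ^ 2 := by
    field_simp
  rw [h10, le_div_iff₀ (by positivity), one_mul]
  exact h8

/-- The asymptotic form. -/
theorem asymptotic_bound (ε : ℝ) (hε : 0 < ε) : ∃ M : ℕ, ∀ (V : Type) [Fintype V] [DecidableEq V]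
    (G : SimpleGraph V) [DecidableRel G.Adj], G.Connected → M ≤ G.edgeFinset.card →
      ∀ f : V → ℝ, ∃ c : ℝ,
        ∑ v, (G.degree v : ℝ) * (f v - c) ^ 2 ≤
          (1 + ε) * (2 * (G.edgeFinset.card : ℝ) ^ 2 / Real.pi ^ 2) *
            ((1 / 2 : ℝ) * ∑ u, ∑ v, (if G.Adj u v then (f u - f v) ^ 2 else 0)) := by
  refine ⟨⌈2 * (1 + ε) / ε⌉₊ + 2, fun V _ _ G _ hG hm f => ?_⟩
  obtain ⟨c, hc⟩ := gap G hG (by omega) f
  refine ⟨c, ?_⟩
  have h1 : 2 * (1 + ε) / ε ≤ (G.edgeFinset.card : ℝ) :=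
    (Nat.le_ceil _).trans (by exact_mod_cast (Nat.le_add_right _ 2).trans hm)
  have h2 := asym hε h1 (by omega)
  set S := ∑ u, ∑ v, (if G.Adj u v then (f u - f v) ^ 2 else 0) with hS
  set D := ∑ v, (G.degree v : ℝ) * (f v - c) ^ 2 with hD
  set s := 4 * Real.sin (Real.pi / (2 * (G.edgeFinset.card : ℝ))) ^ 2 with hs
  have hD0 : 0 ≤ D := Finset.sum_nonneg fun v _ => by positivity
  have h3 : 0 ≤ (1 + ε) * ((G.edgeFinset.card : ℝ) ^ 2 / Real.pi ^ 2) := by positivity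
  calc D ≤ ((1 + ε) * ((G.edgeFinset.card : ℝ) ^ 2 / Real.pi ^ 2) * s) * D :=
        le_mul_of_one_le_left hD0 h2
    _ = ((1 + ε) * ((G.edgeFinset.card : ℝ) ^ 2 / Real.pi ^ 2)) * (s * D) := by ring
    _ ≤ ((1 + ε) * ((G.edgeFinset.card : ℝ) ^ 2 / Real.pi ^ 2)) * S :=
        mul_le_mul_of_nonneg_left hc h3
    _ = _ := by ring

end Pool.Agent.J4.H52
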